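import Pool.Agent.W496.BM.Key

/-!
# The operators on a Hilbert space have no unconditional structure: conclusion
-/

set_option autoImplicit false

namespace Pool.Agent.W496.BM

open Finset
open Pool.Helper799.Te

variable {𝕜 : Type} [RCLike 𝕜] {ι : Type*} [Fintype ι] [DecidableEq ι]

/-- a representation of the identity as an unconditional sum of rank one operators -/
theorem est {κ : Type*} [Fintype κ]
    (φ : κ → (EuclideanSpace 𝕜 ι →L[𝕜] EuclideanSpace 𝕜 ι) →ₗ[𝕜] 𝕜)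
    (x : κ → (EuclideanSpace 𝕜 ι →L[𝕜] EuclideanSpace 𝕜 ι))
    (hid : ∀ y, ∑ k, φ k y • x k = y) (K : ℝ) (hK0 : 0 ≤ K)
    (hK : ∀ (y : EuclideanSpace 𝕜 ι →L[𝕜] EuclideanSpace 𝕜 ι) (s : κ → ℝ),
      (∀ k, s k = 1 ∨ s k = -1) → ‖∑ k, (((s k : ℝ) : 𝕜) * φ k y) • x k‖ ≤ K * ‖y‖)
    (H : ι → ι → ℝ) (hH1 : ∀ i j, |H i j| = 1)
    (hH : ∀ z : ι → 𝕜, ∑ i, ‖∑ j, ((H i j : ℝ) : 𝕜) * z j‖ ^ 2 =
      (Fintype.card ι : ℝ) * ∑ j, ‖z j‖ ^ 2)
    (hcard : 0 < Fintype.card ι) :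
    (9 / 32) ^ 4 * Real.sqrt (Fintype.card ι) ≤ 2 * K := by
  obtain ⟨N, hN⟩ : ∃ N : ℝ, N = (Fintype.card ι : ℝ) := ⟨_, rfl⟩
  have hN0 : 0 < N := by rw [hN]; exact_mod_cast hcard
  rw [← hN] at hH ⊢
  -- the basic inequality
  have hbasic : ∀ (y : EuclideanSpace 𝕜 ι →L[𝕜] EuclideanSpace 𝕜 ι) (ε δ : ι → Bool),
      ∑ k, ‖φ k y‖ * ‖ps ε δ (x k)‖ ≤ 2 * (N * (K * ‖y‖)) := by
    intro y ε δ
    have h := sum_norm_le_of_signs (𝕜 := 𝕜) (fun k => φ k y * ps ε δ (x k)) (N * (K * ‖y‖))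
      (by
        intro s hs
        have e : ∑ k, ((s k : ℝ) : 𝕜) * (φ k y * ps ε δ (x k)) =
            ps ε δ (∑ k, (((s k : ℝ) : 𝕜) * φ k y) • x k) := by
          rw [ps_sum]
          refine Finset.sum_congr rfl fun k _ => ?_
          rw [ps_smul]
          ring
        rw [e]
        calc ‖ps ε δ (∑ k, (((s k : ℝ) : 𝕜) * φ k y) • x k)‖
            ≤ N * ‖∑ k, (((s k : ℝ) : 𝕜) * φ k y) • x k‖ := by
              rw [hN]
              exact norm_ps_le _ _ _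
          _ ≤ N * (K * ‖y‖) := by
              gcongr
              exact hK y s hs)
    simpa only [norm_mul] using h
  -- the test operators
  obtain ⟨Y, hY⟩ : ∃ Y : (ι → Bool) → (ι → Bool) →
      (EuclideanSpace 𝕜 ι →L[𝕜] EuclideanSpace 𝕜 ι),
      Y = fun δ ε => op (fun i j => (((sb (ε i) * sb (δ j) : ℝ)) : 𝕜) * ((H i j : ℝ) : 𝕜)) :=
    ⟨_, rfl⟩
  have hYn : ∀ δ ε, ‖Y δ ε‖ ≤ Real.sqrt N := by
    intro δ ε
    rw [hY]
    exact norm_op_le H N hH ε δ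
  have hφY : ∀ k δ ε, φ k (Y δ ε) =
      ∑ i, ∑ j, (((sb (ε i) * sb (δ j) : ℝ)) : 𝕜) * (((H i j : ℝ) : 𝕜) * φ k (un i j)) := by
    intro k δ ε
    rw [hY]
    dsimp only
    rw [op_eq, map_sum]
    refine Finset.sum_congr rfl fun i _ => ?_
    rw [map_sum]
    refine Finset.sum_congr rfl fun j _ => ?_
    rw [map_smul, smul_eq_mul]
    ring
  have hF : ∀ k, (9 / 32) ^ 2 * Real.sqrt (∑ i, ∑ j, ‖φ k (un i j)‖ ^ 2) ≤
      Av (fun δ : ι → Bool => Av (fun ε : ι → Bool => ‖φ k (Y δ ε)‖)) := by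
    intro k
    have h := khin2 (𝕜 := 𝕜) (fun i j => ((H i j : ℝ) : 𝕜) * φ k (un i j))
    have e : ∀ i j, ‖((H i j : ℝ) : 𝕜) * φ k (un i j)‖ = ‖φ k (un i j)‖ := by
      intro i j
      rw [norm_mul, RCLike.norm_ofReal, hH1, one_mul]
    simp only [e] at h
    simp only [hφY]
    exact h
  have hG : ∀ k, (9 / 32) ^ 2 * Real.sqrt (∑ i, ∑ j, ‖co (x k) i j‖ ^ 2) ≤
      Av (fun δ : ι → Bool => Av (fun ε : ι → Bool => ‖ps ε δ (x k)‖)) := fun k => khin2 _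
  -- averages
  obtain ⟨G, hGdef⟩ : ∃ G : κ → ℝ, G = fun k =>
      Av (fun δ : ι → Bool => Av (fun ε : ι → Bool => ‖ps ε δ (x k)‖)) := ⟨_, rfl⟩
  have hG0 : ∀ k, 0 ≤ G k := by
    intro k
    rw [hGdef]
    exact Av_nonneg fun δ => Av_nonneg fun ε => norm_nonneg _
  have h1 : ∀ δ' ε', ∑ k, ‖φ k (Y δ' ε')‖ * G k ≤ 2 * (N * (K * Real.sqrt N)) := by
    intro δ' ε'
    rw [hGdef]
    dsimp only
    rw [sum_Av2 (fun k => ‖φ k (Y δ' ε')‖) (fun k δ ε => ‖ps ε δ (x k)‖)]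
    have h2 : ∀ δ ε : ι → Bool, ∑ k, ‖φ k (Y δ' ε')‖ * ‖ps ε δ (x k)‖ ≤
        2 * (N * (K * Real.sqrt N)) := by
      intro δ ε
      refine (hbasic (Y δ' ε') ε δ).trans ?_
      have := hYn δ' ε'
      gcongr
    calc _ ≤ Av (fun _ : ι → Bool => Av (fun _ : ι → Bool => 2 * (N * (K * Real.sqrt N)))) :=
          Av_mono fun δ => Av_mono fun ε => h2 δ ε
      _ = _ := by rw [Av_const, Av_const]
  have h2 : ∑ k, G k * Av (fun δ : ι → Bool => Av (fun ε : ι → Bool => ‖φ k (Y δ ε)‖)) ≤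
      2 * (N * (K * Real.sqrt N)) := by
    rw [sum_Av2 G (fun k δ ε => ‖φ k (Y δ ε)‖)]
    calc _ ≤ Av (fun _ : ι → Bool => Av (fun _ : ι → Bool => 2 * (N * (K * Real.sqrt N)))) :=
          Av_mono fun δ => Av_mono fun ε => by
            refine le_trans (le_of_eq ?_) (h1 δ ε)
            exact Finset.sum_congr rfl fun k _ => mul_comm _ _
      _ = _ := by rw [Av_const, Av_const]
  -- the trace
  have h3 : N ^ 2 ≤ ∑ k, Real.sqrt (∑ i, ∑ j, ‖φ k (un i j)‖ ^ 2) *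
      Real.sqrt (∑ i, ∑ j, ‖co (x k) i j‖ ^ 2) := by
    have e1 : ∀ i j, ∑ k, φ k (un i j) * co (x k) i j = 1 := by
      intro i j
      have h := hid (un i j)
      have hco : ∀ y : κ → (EuclideanSpace 𝕜 ι →L[𝕜] EuclideanSpace 𝕜 ι),
          co (∑ k, y k) i j = ∑ k, co (y k) i j := by
        intro y
        unfold co
        simp
      have h' : co (∑ k, φ k (un i j) • x k) i j = co (un i j) i j := by rw [h]
      rw [hco, co_un] at h'
      rw [← h']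
      exact Finset.sum_congr rfl fun k _ => (co_smul _ _ _ _).symm
    have e2 : ((N ^ 2 : ℝ) : 𝕜) = ∑ k, ∑ i, ∑ j, φ k (un i j) * co (x k) i j := by
      rw [Finset.sum_comm]
      have : ∀ i, ∑ k, ∑ j, φ k (un i j) * co (x k) i j = ((N : ℝ) : 𝕜) := by
        intro i
        rw [Finset.sum_comm]
        simp only [e1]
        rw [hN]
        simp
      rw [Finset.sum_congr rfl fun i _ => this i]
      rw [Finset.sum_const, Finset.card_univ, nsmul_eq_mul, hN]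
      push_cast
      ring
    have e3 : N ^ 2 = ‖((N ^ 2 : ℝ) : 𝕜)‖ := by
      rw [RCLike.norm_ofReal, abs_of_nonneg (by positivity)]
    rw [e3, e2]
    refine (norm_sum_le _ _).trans (Finset.sum_le_sum fun k _ => ?_)
    calc ‖∑ i, ∑ j, φ k (un i j) * co (x k) i j‖
        ≤ ∑ i, ∑ j, ‖φ k (un i j)‖ * ‖co (x k) i j‖ := by
          refine (norm_sum_le _ _).trans (Finset.sum_le_sum fun i _ => ?_)
          refine (norm_sum_le _ _).trans (Finset.sum_le_sum fun j _ => ?_)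
          rw [norm_mul]
      _ = ∑ t : ι × ι, ‖φ k (un t.1 t.2)‖ * ‖co (x k) t.1 t.2‖ := by
          rw [Fintype.sum_prod_type]
      _ ≤ Real.sqrt (∑ t : ι × ι, ‖φ k (un t.1 t.2)‖ ^ 2) *
          Real.sqrt (∑ t : ι × ι, ‖co (x k) t.1 t.2‖ ^ 2) := Real.sum_mul_le_sqrt_mul_sqrt _ _ _
      _ = _ := by rw [Fintype.sum_prod_type, Fintype.sum_prod_type]
  have h4 : (9 / 32) ^ 4 * N ^ 2 ≤ 2 * (N * (K * Real.sqrt N)) := by
    calc (9 / 32) ^ 4 * N ^ 2 ≤ (9 / 32) ^ 4 * ∑ k, Real.sqrt (∑ i, ∑ j, ‖φ k (un i j)‖ ^ 2) *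
      Real.sqrt (∑ i, ∑ j, ‖co (x k) i j‖ ^ 2) := by gcongr
      _ = ∑ k, ((9 / 32) ^ 2 * Real.sqrt (∑ i, ∑ j, ‖co (x k) i j‖ ^ 2)) *
          ((9 / 32) ^ 2 * Real.sqrt (∑ i, ∑ j, ‖φ k (un i j)‖ ^ 2)) := by
          rw [Finset.mul_sum]
          refine Finset.sum_congr rfl fun k _ => ?_
          ring
      _ ≤ ∑ k, G k * Av (fun δ : ι → Bool => Av (fun ε : ι → Bool => ‖φ k (Y δ ε)‖)) := by
          refine Finset.sum_le_sum fun k _ => ?_
          have hk := hG k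
          have hk' := hF k
          have hg : (9 / 32) ^ 2 * Real.sqrt (∑ i, ∑ j, ‖co (x k) i j‖ ^ 2) ≤ G k := by
            rw [hGdef]
            exact hk
          exact mul_le_mul hg hk' (by positivity) (hG0 k)
      _ ≤ _ := h2
  have hs : Real.sqrt N * Real.sqrt N = N := Real.mul_self_sqrt hN0.le
  have hs0 : 0 < Real.sqrt N := Real.sqrt_pos.2 hN0
  have h5 : (9 / 32) ^ 4 * Real.sqrt N * (N * Real.sqrt N) ≤ 2 * K * (N * Real.sqrt N) := by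
    calc (9 / 32) ^ 4 * Real.sqrt N * (N * Real.sqrt N)
        = (9 / 32) ^ 4 * (N * (Real.sqrt N * Real.sqrt N)) := by ring
      _ = (9 / 32) ^ 4 * N ^ 2 := by rw [hs, sq]
      _ ≤ 2 * (N * (K * Real.sqrt N)) := h4
      _ = 2 * K * (N * Real.sqrt N) := by ring
  exact le_of_mul_le_mul_right h5 (by positivity)

end Pool.Agent.W496.BM
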