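import Pool.Agent.W496.BM.Est
import Pool.Agent.Helper358.BP7

/-!
# Spaces with local unconditional structure
-/

set_option autoImplicit false

namespace Pool.Agent.W496.BM

open Finset

universe u

variable {𝕜 : Type} [RCLike 𝕜]

/-- spaces in which the spaces of operators on a Euclidean space are not uniformly complemented -/
theorem far_of_est {X : Type u} [NormedAddCommGroup X] [NormedSpace 𝕜 X] [CompleteSpace X]
    (hX : ¬ FiniteDimensional 𝕜 X) (C : ℝ) (hC : 0 ≤ C)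
    (h : ∀ (ι : Type u) [Fintype ι] [DecidableEq ι]
      (a : (EuclideanSpace 𝕜 ι →L[𝕜] EuclideanSpace 𝕜 ι) →L[𝕜] X)
      (b : X →L[𝕜] (EuclideanSpace 𝕜 ι →L[𝕜] EuclideanSpace 𝕜 ι)), (∀ e, b (a e) = e) →
      ∃ (κ : Type) (_ : Fintype κ)
        (φ : κ → (EuclideanSpace 𝕜 ι →L[𝕜] EuclideanSpace 𝕜 ι) →ₗ[𝕜] 𝕜)
        (x : κ → (EuclideanSpace 𝕜 ι →L[𝕜] EuclideanSpace 𝕜 ι)),
        (∀ y, ∑ k, φ k y • x k = y) ∧
        ∀ (y : EuclideanSpace 𝕜 ι →L[𝕜] EuclideanSpace 𝕜 ι) (s : κ → ℝ),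
          (∀ k, s k = 1 ∨ s k = -1) →
          ‖∑ k, (((s k : ℝ) : 𝕜) * φ k y) • x k‖ ≤ C * (‖a‖ * ‖b‖) * ‖y‖) :
    Pool.Agent.Helper358.BP.Far 𝕜 X := by
  apply Pool.Agent.Helper358.BP.far_of_fin hX
  intro M
  -- choose the dimension
  obtain ⟨n, hn⟩ := exists_nat_gt ((2 * (C * |M|) / (9 / 32) ^ 4) ^ 2)
  obtain ⟨ι, i1, i2, H, hc, hH1, hH⟩ := hadamard.{u} 𝕜 n
  have hfin : FiniteDimensional 𝕜 (EuclideanSpace 𝕜 ι →L[𝕜] EuclideanSpace 𝕜 ι) := by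
    infer_instance
  refine ⟨EuclideanSpace 𝕜 ι →L[𝕜] EuclideanSpace 𝕜 ι, inferInstance, inferInstance, hfin,
    fun a b hab => ?_⟩
  obtain ⟨κ, i3, φ, x, hid, hK⟩ := h ι a b hab
  have hcard : (Fintype.card ι : ℝ) = 2 ^ n := by
    rw [hc]
    push_cast
    rfl
  have h1 := est φ x hid (C * (‖a‖ * ‖b‖)) (by positivity) hK H hH1 (by
    intro z
    rw [hcard]
    exact hH z) (by rw [hc]; positivity)
  rw [hcard] at h1
  by_contra hcon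
  push Not at hcon
  have h2 : ‖a‖ * ‖b‖ ≤ |M| := hcon.trans (le_abs_self M)
  have h3 : (9 / 32 : ℝ) ^ 4 * Real.sqrt (2 ^ n) ≤ 2 * (C * |M|) := by
    refine h1.trans ?_
    gcongr
  have h4 : Real.sqrt (2 ^ n) ≤ 2 * (C * |M|) / (9 / 32) ^ 4 := by
    rw [le_div_iff₀ (by positivity)]
    linarith
  have h5 : (2 : ℝ) ^ n ≤ (2 * (C * |M|) / (9 / 32) ^ 4) ^ 2 := by
    have := Real.sq_sqrt (show (0 : ℝ) ≤ 2 ^ n by positivity)
    rw [← this]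
    gcongr
  have h6 : (n : ℝ) ≤ 2 ^ n := by
    exact_mod_cast (Nat.lt_two_pow_self).le
  linarith

end Pool.Agent.W496.BM
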