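import Mathlib
import Pool.Agent.Helper799.TeCube

/-!
# The operators on a Hilbert space have no unconditional structure (Gordon-Lewis)
-/

set_option autoImplicit false

namespace Pool.Agent.W496.BM

open Finset
open Pool.Helper799.Te

universe u

variable {𝕜 : Type} [RCLike 𝕜]

section khin

variable {ι : Type*} [Fintype ι] [DecidableEq ι]

lemma minkowski {κ : Type*} [Fintype κ] (f : κ → (ι → Bool) → ℝ) :
    Real.sqrt (∑ i, (Av (f i)) ^ 2) ≤ Av (fun δ => Real.sqrt (∑ i, (f i δ) ^ 2)) := by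
  set R := Real.sqrt (∑ i, (Av (f i)) ^ 2) with hR
  have hR0 : 0 ≤ R := Real.sqrt_nonneg _
  have hR2 : R * R = ∑ i, (Av (f i)) ^ 2 :=
    Real.mul_self_sqrt (Finset.sum_nonneg fun i _ => sq_nonneg _)
  have h1 : R * R ≤ R * Av (fun δ => Real.sqrt (∑ i, (f i δ) ^ 2)) := by
    have e : ∑ i, (Av (f i)) ^ 2 = Av (fun δ => ∑ i, Av (f i) * f i δ) := by
      rw [Av_sum]
      refine Finset.sum_congr rfl fun i _ => ?_
      rw [Av_mul, sq]
    rw [hR2, e, ← Av_mul]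
    refine Av_mono fun δ => ?_
    exact Real.sum_mul_le_sqrt_mul_sqrt _ _ _
  rcases hR0.eq_or_lt with h | h
  · rw [← h]
    exact Av_nonneg fun δ => Real.sqrt_nonneg _
  · exact le_of_mul_le_mul_left h1 h

/-- the double Khintchine inequality -/
lemma khin2 (a : ι → ι → 𝕜) :
    (9 / 32) ^ 2 * Real.sqrt (∑ i, ∑ j, ‖a i j‖ ^ 2) ≤
      Av (fun δ : ι → Bool => Av (fun ε : ι → Bool =>
        ‖∑ i, ∑ j, (((sb (ε i) * sb (δ j) : ℝ)) : 𝕜) * a i j‖)) := by
  have h1 : ∀ i, (9 / 32) * Real.sqrt (∑ j, ‖a i j‖ ^ 2) ≤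
      Av (fun δ : ι → Bool => ‖∑ j, ((sb (δ j) : ℝ) : 𝕜) * a i j‖) := fun i => khinC _
  have h2 : (9 / 32) * Real.sqrt (∑ i, ∑ j, ‖a i j‖ ^ 2) ≤
      Real.sqrt (∑ i, (Av (fun δ : ι → Bool => ‖∑ j, ((sb (δ j) : ℝ) : 𝕜) * a i j‖)) ^ 2) := by
    apply Real.le_sqrt_of_sq_le
    rw [mul_pow, Real.sq_sqrt (by positivity), Finset.mul_sum]
    refine Finset.sum_le_sum fun i _ => ?_
    have h3 := h1 i
    have h4 : 0 ≤ (9 / 32) * Real.sqrt (∑ j, ‖a i j‖ ^ 2) := by positivity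
    calc (9 / 32) ^ 2 * ∑ j, ‖a i j‖ ^ 2
        = ((9 / 32) * Real.sqrt (∑ j, ‖a i j‖ ^ 2)) ^ 2 := by
          rw [mul_pow, Real.sq_sqrt (by positivity)]
      _ ≤ _ := by gcongr
  have h3 := h2.trans (minkowski _)
  calc (9 / 32) ^ 2 * Real.sqrt (∑ i, ∑ j, ‖a i j‖ ^ 2)
      = (9 / 32) * ((9 / 32) * Real.sqrt (∑ i, ∑ j, ‖a i j‖ ^ 2)) := by ring
    _ ≤ (9 / 32) * Av (fun δ : ι → Bool =>
          Real.sqrt (∑ i, (‖∑ j, ((sb (δ j) : ℝ) : 𝕜) * a i j‖) ^ 2)) := by gcongr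
    _ = Av (fun δ : ι → Bool => (9 / 32) *
          Real.sqrt (∑ i, (‖∑ j, ((sb (δ j) : ℝ) : 𝕜) * a i j‖) ^ 2)) := by rw [Av_mul]
    _ ≤ _ := by
      refine Av_mono fun δ => ?_
      refine (khinC (fun i => ∑ j, ((sb (δ j) : ℝ) : 𝕜) * a i j)).trans (Av_mono fun ε => ?_)
      apply le_of_eq
      congr 1
      refine Finset.sum_congr rfl fun i _ => ?_
      rw [Finset.mul_sum]
      refine Finset.sum_congr rfl fun j _ => ?_
      push_cast
      ring

lemma sum_Av2 {κ : Type*} [Fintype κ] (c : κ → ℝ) (g : κ → (ι → Bool) → (ι → Bool) → ℝ) :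
    ∑ k, c k * Av (fun δ => Av (fun ε => g k δ ε)) =
      Av (fun δ => Av (fun ε => ∑ k, c k * g k δ ε)) := by
  have : (fun δ => Av (fun ε => ∑ k, c k * g k δ ε)) =
      fun δ => ∑ k, c k * Av (fun ε => g k δ ε) := by
    funext δ
    rw [Av_sum]
    refine Finset.sum_congr rfl fun k _ => ?_
    rw [Av_mul]
  rw [this, Av_sum]
  refine Finset.sum_congr rfl fun k _ => ?_
  rw [Av_mul]

end khin

/-- Hadamard matrices -/
lemma hadamard (𝕜 : Type) [RCLike 𝕜] (m : ℕ) :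
    ∃ (ι : Type u) (_ : Fintype ι) (_ : DecidableEq ι) (H : ι → ι → ℝ),
      Fintype.card ι = 2 ^ m ∧ (∀ i j, |H i j| = 1) ∧
      ∀ z : ι → 𝕜, ∑ i, ‖∑ j, ((H i j : ℝ) : 𝕜) * z j‖ ^ 2 = 2 ^ m * ∑ j, ‖z j‖ ^ 2 := by
  induction m with
  | zero =>
    refine ⟨PUnit.{u+1}, inferInstance, inferInstance, fun _ _ => 1, by simp, by simp, ?_⟩
    intro z
    simp
  | succ m ih =>
    obtain ⟨ι, _, _, H, hc, h1, hz⟩ := ih
    refine ⟨ι ⊕ ι, inferInstance, inferInstance, fun a b => match a, b with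
      | Sum.inl i, Sum.inl j => H i j
      | Sum.inl i, Sum.inr j => H i j
      | Sum.inr i, Sum.inl j => H i j
      | Sum.inr i, Sum.inr j => - H i j, ?_, ?_, ?_⟩
    · rw [Fintype.card_sum, hc, pow_succ]
      ring
    · rintro (i | i) (j | j) <;> simp [h1]
    · intro z
      rw [Fintype.sum_sum_type, Fintype.sum_sum_type]
      simp only [Fintype.sum_sum_type]
      have h2 := hz (fun j => z (Sum.inl j))
      have h3 := hz (fun j => z (Sum.inr j))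
      have e : ∀ i, ∑ j, ((-H i j : ℝ) : 𝕜) * z (Sum.inr j) =
          - ∑ j, ((H i j : ℝ) : 𝕜) * z (Sum.inr j) := by
        intro i
        rw [← Finset.sum_neg_distrib]
        refine Finset.sum_congr rfl fun j _ => ?_
        push_cast
        ring
      simp only [e]
      rw [← Finset.sum_add_distrib]
      have hp : ∀ x y : 𝕜, ‖x + y‖ ^ 2 + ‖x + -y‖ ^ 2 = 2 * (‖x‖ ^ 2 + ‖y‖ ^ 2) := by
        intro x y
        rw [← sub_eq_add_neg]
        have := parallelogram_law_with_norm 𝕜 x y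
        nlinarith [this]
      simp only [hp]
      rw [← Finset.mul_sum, Finset.sum_add_distrib, h2, h3, pow_succ]
      ring

end Pool.Agent.W496.BM
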