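import Pool.Agent.W496.BM.GL

/-!
# The operators on a Hilbert space have no unconditional structure: the estimate
-/

set_option autoImplicit false

namespace Pool.Agent.W496.BM

open Finset
open Pool.Helper799.Te

variable {𝕜 : Type} [RCLike 𝕜] {ι : Type*} [Fintype ι] [DecidableEq ι]

/-- the operator with a given matrix -/
noncomputable def op (A : ι → ι → 𝕜) : EuclideanSpace 𝕜 ι →L[𝕜] EuclideanSpace 𝕜 ι :=
  LinearMap.toContinuousLinearMap
    { toFun := fun x => WithLp.toLp 2 (fun i => ∑ j, A i j * x j)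
      map_add' := by
        intro x y
        ext i
        simp [mul_add, Finset.sum_add_distrib]
      map_smul' := by
        intro c x
        ext i
        simp only [PiLp.smul_apply, smul_eq_mul, RingHom.id_apply, Finset.mul_sum]
        refine Finset.sum_congr rfl fun j _ => ?_
        ring }

lemma op_apply (A : ι → ι → 𝕜) (x : EuclideanSpace 𝕜 ι) (i : ι) :
    (op A x) i = ∑ j, A i j * x j := rfl

/-- the matrix of an operator -/
noncomputable def co (x : EuclideanSpace 𝕜 ι →L[𝕜] EuclideanSpace 𝕜 ι) (i j : ι) : 𝕜 :=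
  (x (EuclideanSpace.single j 1)) i

lemma co_add (x y : EuclideanSpace 𝕜 ι →L[𝕜] EuclideanSpace 𝕜 ι) (i j : ι) :
    co (x + y) i j = co x i j + co y i j := rfl

lemma co_smul (c : 𝕜) (x : EuclideanSpace 𝕜 ι →L[𝕜] EuclideanSpace 𝕜 ι) (i j : ι) :
    co (c • x) i j = c * co x i j := rfl

/-- the matrix units -/
noncomputable def un (i j : ι) : EuclideanSpace 𝕜 ι →L[𝕜] EuclideanSpace 𝕜 ι :=
  op (fun i' j' => if i' = i ∧ j' = j then 1 else 0)

lemma co_un (i j : ι) : co (un (𝕜 := 𝕜) i j) i j = 1 := by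
  unfold co un
  rw [op_apply]
  rw [Finset.sum_eq_single j]
  · simp
  · intro b _ hb
    simp [hb]
  · intro h
    exact absurd (Finset.mem_univ _) h

lemma op_eq (A : ι → ι → 𝕜) : op A = ∑ i, ∑ j, A i j • un i j := by
  ext x k
  rw [op_apply, eq_comm]
  simp only [_root_.sum_apply, smul_apply, WithLp.ofLp_sum,
    Finset.sum_apply, PiLp.smul_apply, smul_eq_mul]
  rw [Finset.sum_eq_single k]
  · refine Finset.sum_congr rfl fun j _ => ?_
    congr 1
    unfold un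
    rw [op_apply, Finset.sum_eq_single j]
    · simp
    · intro b _ hb
      simp [hb]
    · intro h
      exact absurd (Finset.mem_univ _) h
  · intro b _ hb
    refine Finset.sum_eq_zero fun j _ => ?_
    unfold un
    rw [op_apply, Finset.sum_eq_zero, mul_zero]
    intro l _
    simp [Ne.symm hb]
  · intro h
    exact absurd (Finset.mem_univ _) h

lemma norm_op_le (H : ι → ι → ℝ) (N : ℝ)
    (hH : ∀ z : ι → 𝕜, ∑ i, ‖∑ j, ((H i j : ℝ) : 𝕜) * z j‖ ^ 2 = N * ∑ j, ‖z j‖ ^ 2)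
    (ε δ : ι → Bool) :
    ‖op (fun i j => (((sb (ε i) * sb (δ j) : ℝ)) : 𝕜) * ((H i j : ℝ) : 𝕜))‖ ≤ Real.sqrt N := by
  refine ContinuousLinearMap.opNorm_le_bound _ (Real.sqrt_nonneg _) fun x => ?_
  rw [EuclideanSpace.norm_eq, EuclideanSpace.norm_eq, ← Real.sqrt_mul' _ (by positivity)]
  apply le_of_eq
  congr 1
  have h := hH (fun j => ((sb (δ j) : ℝ) : 𝕜) * x j)
  have e1 : ∀ j, ‖((sb (δ j) : ℝ) : 𝕜) * x j‖ = ‖x j‖ := by
    intro j
    rw [norm_mul, RCLike.norm_ofReal, abs_sb, one_mul]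
  simp only [e1] at h
  rw [← h]
  refine Finset.sum_congr rfl fun i _ => ?_
  congr 1
  rw [op_apply]
  have e2 : ∑ j, (((sb (ε i) * sb (δ j) : ℝ)) : 𝕜) * ((H i j : ℝ) : 𝕜) * x j =
      ((sb (ε i) : ℝ) : 𝕜) * ∑ j, ((H i j : ℝ) : 𝕜) * (((sb (δ j) : ℝ) : 𝕜) * x j) := by
    rw [Finset.mul_sum]
    refine Finset.sum_congr rfl fun j _ => ?_
    push_cast
    ring
  rw [e2, norm_mul, RCLike.norm_ofReal, abs_sb, one_mul]

/-- the functional given by two sign vectors -/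
noncomputable def ps (ε δ : ι → Bool) (x : EuclideanSpace 𝕜 ι →L[𝕜] EuclideanSpace 𝕜 ι) : 𝕜 :=
  ∑ i, ∑ j, (((sb (ε i) * sb (δ j) : ℝ)) : 𝕜) * co x i j

lemma ps_smul (ε δ : ι → Bool) (c : 𝕜) (x : EuclideanSpace 𝕜 ι →L[𝕜] EuclideanSpace 𝕜 ι) :
    ps ε δ (c • x) = c * ps ε δ x := by
  unfold ps
  simp only [co_smul, Finset.mul_sum]
  refine Finset.sum_congr rfl fun i _ => Finset.sum_congr rfl fun j _ => ?_
  ring

lemma ps_add (ε δ : ι → Bool) (x y : EuclideanSpace 𝕜 ι →L[𝕜] EuclideanSpace 𝕜 ι) :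
    ps ε δ (x + y) = ps ε δ x + ps ε δ y := by
  unfold ps
  rw [← Finset.sum_add_distrib]
  refine Finset.sum_congr rfl fun i _ => ?_
  rw [← Finset.sum_add_distrib]
  refine Finset.sum_congr rfl fun j _ => ?_
  rw [co_add]
  ring

lemma ps_sum {κ : Type*} (ε δ : ι → Bool) (F : Finset κ)
    (x : κ → EuclideanSpace 𝕜 ι →L[𝕜] EuclideanSpace 𝕜 ι) :
    ps ε δ (∑ k ∈ F, x k) = ∑ k ∈ F, ps ε δ (x k) := by
  classical
  induction F using Finset.induction_on with
  | empty =>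
    simp only [Finset.sum_empty]
    have := ps_add ε δ (0 : EuclideanSpace 𝕜 ι →L[𝕜] EuclideanSpace 𝕜 ι) 0
    rw [add_zero] at this
    exact left_eq_add.mp this
  | insert a s ha ih => rw [Finset.sum_insert ha, Finset.sum_insert ha, ps_add, ih]

lemma norm_ps_le (ε δ : ι → Bool) (x : EuclideanSpace 𝕜 ι →L[𝕜] EuclideanSpace 𝕜 ι) :
    ‖ps ε δ x‖ ≤ Fintype.card ι * ‖x‖ := by
  set t : EuclideanSpace 𝕜 ι := WithLp.toLp 2 (fun j => ((sb (δ j) : ℝ) : 𝕜)) with ht
  set s : EuclideanSpace 𝕜 ι := WithLp.toLp 2 (fun j => ((sb (ε j) : ℝ) : 𝕜)) with hs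
  have ht1 : t = ∑ j, ((sb (δ j) : ℝ) : 𝕜) • EuclideanSpace.single j (1 : 𝕜) := by
    ext k
    simp [ht, Pi.single_apply, RCLike.real_smul_eq_coe_mul]
  have hxt : ∀ i, (x t) i = ∑ j, ((sb (δ j) : ℝ) : 𝕜) * co x i j := by
    intro i
    conv_lhs => rw [ht1]
    rw [map_sum]
    simp only [map_smul, WithLp.ofLp_sum, Finset.sum_apply, PiLp.smul_apply, smul_eq_mul]
    rfl
  have hn : ∀ γ : ι → Bool,
      ‖(WithLp.toLp 2 (fun j => ((sb (γ j) : ℝ) : 𝕜)) : EuclideanSpace 𝕜 ι)‖ =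
        Real.sqrt (Fintype.card ι) := by
    intro γ
    rw [EuclideanSpace.norm_eq]
    congr 1
    simp [RCLike.norm_ofReal, abs_sb]
  have h1 : ps ε δ x = inner 𝕜 s (x t) := by
    rw [PiLp.inner_apply]
    unfold ps
    refine Finset.sum_congr rfl fun i _ => ?_
    rw [hxt]
    simp only [hs, RCLike.inner_apply, RCLike.conj_ofReal]
    rw [Finset.sum_mul]
    refine Finset.sum_congr rfl fun j _ => ?_
    push_cast
    ring
  rw [h1]
  calc ‖inner 𝕜 s (x t)‖ ≤ ‖s‖ * ‖x t‖ := norm_inner_le_norm _ _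
    _ ≤ ‖s‖ * (‖x‖ * ‖t‖) := by gcongr; exact x.le_opNorm t
    _ = Real.sqrt (Fintype.card ι) * Real.sqrt (Fintype.card ι) * ‖x‖ := by
      rw [hs, ht, hn, hn]
      ring
    _ = Fintype.card ι * ‖x‖ := by rw [Real.mul_self_sqrt (by positivity)]

/-- sums of the norms of scalars all of whose signed sums are small -/
lemma sum_norm_le_of_signs {κ : Type*} [Fintype κ] (c : κ → 𝕜) (K : ℝ)
    (h : ∀ s : κ → ℝ, (∀ k, s k = 1 ∨ s k = -1) → ‖∑ k, ((s k : ℝ) : 𝕜) * c k‖ ≤ K) :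
    ∑ k, ‖c k‖ ≤ 2 * K := by
  have hsg : ∀ r : ℝ, ((if 0 ≤ r then 1 else -1 : ℝ) = 1 ∨ (if 0 ≤ r then 1 else -1 : ℝ) = -1) ∧
      (if 0 ≤ r then 1 else -1 : ℝ) * r = |r| := by
    intro r
    by_cases hr : 0 ≤ r
    · simp [hr, abs_of_nonneg hr]
    · have hr' := not_le.mp hr
      simp [hr, abs_of_neg hr']
  have h1 : ∑ k, |RCLike.re (c k)| ≤ K := by
    have := h (fun k => if 0 ≤ RCLike.re (c k) then 1 else -1) (fun k => (hsg _).1)
    refine le_trans ?_ ((RCLike.re_le_norm _).trans this)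
    apply le_of_eq
    rw [map_sum]
    refine Finset.sum_congr rfl fun k _ => ?_
    rw [RCLike.re_ofReal_mul, (hsg _).2]
  have h2 : ∑ k, |RCLike.im (c k)| ≤ K := by
    have := h (fun k => if 0 ≤ RCLike.im (c k) then 1 else -1) (fun k => (hsg _).1)
    refine le_trans ?_ ((RCLike.im_le_norm _).trans this)
    apply le_of_eq
    rw [map_sum]
    refine Finset.sum_congr rfl fun k _ => ?_
    rw [RCLike.im_ofReal_mul, (hsg _).2]
  have h3 : ∑ k, ‖c k‖ ≤ ∑ k, (|RCLike.re (c k)| + |RCLike.im (c k)|) :=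
    Finset.sum_le_sum fun k _ => by
      have e : ‖c k‖ ^ 2 = RCLike.re (c k) ^ 2 + RCLike.im (c k) ^ 2 := by
        rw [← RCLike.normSq_eq_def', RCLike.normSq_apply]
        ring
      have e1 := abs_nonneg (RCLike.re (c k))
      have e2 := abs_nonneg (RCLike.im (c k))
      have e3 := sq_abs (RCLike.re (c k))
      have e4 := sq_abs (RCLike.im (c k))
      by_contra hcon
      push Not at hcon
      nlinarith [norm_nonneg (c k), mul_nonneg e1 e2]
  rw [Finset.sum_add_distrib] at h3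
  linarith

end Pool.Agent.W496.BM
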