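import Pool.Agent.W496.BM.Riesz

/-!
# Vector lattices: simultaneous approximation
-/

set_option autoImplicit false

namespace Pool.Agent.W496.BM

open Finset

section joint

variable {L : Type*} [AddCommGroup L] [Lattice L] [IsOrderedAddMonoid L]

lemma joint {J : Type*} (s : Finset J) (x : J → L) (e : L) (he : 0 ≤ e)
    (h : ∀ j ∈ s, 0 ≤ x j ∧ x j ≤ e) (m : ℕ) :
    ∃ (κ : Type) (_ : Fintype κ) (z : κ → L) (c : J → κ → ℕ), (∀ k, 0 ≤ z k) ∧
      ∑ k, z k = e ∧ (∀ j ∈ s, ∑ k, c j k • z k = m • x j) ∧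
      ∀ j ∈ s, ∀ k, z k ⊓ ((|m • x j - (c j k) • e| - e) ⊔ 0) = 0 := by
  classical
  induction s using Finset.induction_on with
  | empty =>
    exact ⟨Unit, inferInstance, fun _ => e, fun _ _ => 0, fun _ => he, by simp, by simp, by simp⟩
  | insert a s ha ih =>
    obtain ⟨κ, _, z, c, hz0, hz1, hz2, hz3⟩ := ih fun j hj => h j (Finset.mem_insert_of_mem hj)
    obtain ⟨hxa, hxae⟩ := h a (Finset.mem_insert_self _ _)
    obtain ⟨u, hu0, hu1, hu2, hu3⟩ := hats (x a) e hxa hxae m
    obtain ⟨w, hw0, hw1, hw2⟩ := refinement (m + 1) z (fun j : Fin (m + 1) => u j) hz0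
      (fun j => hu0 _) (by rw [hz1, ← hu1, Finset.sum_range])
    refine ⟨κ × Fin (m + 1), inferInstance, fun p => w p.1 p.2,
      fun j p => if j = a then (p.2 : ℕ) else c j p.1, fun p => hw0 _ _, ?_, ?_, ?_⟩
    · rw [Fintype.sum_prod_type]
      simp only [hw1]
      exact hz1
    · intro j hj
      by_cases hja : j = a
      · subst hja
        simp only [if_true]
        rw [Fintype.sum_prod_type, Finset.sum_comm]
        dsimp only
        have : ∀ l : Fin (m + 1), ∑ k, (l : ℕ) • w k l = (l : ℕ) • u l := by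
          intro l
          rw [← Finset.smul_sum, hw2]
        simp only [this]
        rw [← hu2, Finset.sum_range]
      · have hjs := (Finset.mem_insert.mp hj).resolve_left hja
        simp only [hja, if_false]
        rw [Fintype.sum_prod_type]
        dsimp only
        have : ∀ k, ∑ l : Fin (m + 1), c j k • w k l = c j k • z k := by
          intro k
          rw [← Finset.smul_sum, hw1]
        simp only [this]
        exact hz2 j hjs
    · rintro j hj ⟨k, l⟩
      dsimp only
      have h1 : w k l ≤ z k := by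
        rw [← hw1 k]
        exact Finset.single_le_sum (f := fun l => w k l) (fun l _ => hw0 k l) (Finset.mem_univ l)
      have h2 : w k l ≤ u l := by
        rw [← hw2 l]
        exact Finset.single_le_sum (f := fun k => w k l) (fun k _ => hw0 k l) (Finset.mem_univ k)
      by_cases hja : j = a
      · subst hja
        rw [if_pos rfl]
        exact disj_mono (hu3 l) (hw0 _ _) h2 le_sup_right le_rfl
      · have hjs := (Finset.mem_insert.mp hj).resolve_left hja
        rw [if_neg hja]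
        exact disj_mono (hz3 j hjs k) (hw0 _ _) h1 le_sup_right le_rfl

end joint

section real

variable {L : Type*} [AddCommGroup L] [Lattice L] [IsOrderedAddMonoid L] [Module ℝ L]
  [IsOrderedModule ℝ L]

lemma disj_smul {z v : L} (hz : 0 ≤ z) (hv : 0 ≤ v) (h : z ⊓ v = 0) (c : ℝ) (hc : 0 ≤ c) :
    z ⊓ (c • v) = 0 := by
  obtain ⟨n, hn⟩ := exists_nat_ge c
  refine disj_mono (disj_nsmul hz hv h n) hz le_rfl (smul_nonneg hc hv) ?_
  rw [← Nat.cast_smul_eq_nsmul ℝ]
  exact smul_le_smul_of_nonneg_right hn hv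

lemma layer {κ : Type*} [DecidableEq κ] (n : ℕ) : ∀ (s : Finset κ), s.card = n →
    ∀ (z : κ → L) (d : κ → ℝ) (e w : L), (∀ k ∈ s, 0 ≤ z k) → (∀ k ∈ s, 0 ≤ d k) → 0 ≤ e →
    0 ≤ w → ∑ k ∈ s, z k ≤ e → (∀ k ∈ s, z k ⊓ ((d k • e - w) ⊔ 0) = 0) →
    ∑ k ∈ s, d k • z k ≤ w := by
  induction n with
  | zero =>
    intro s hs z d e w _ _ _ hw _ _
    rw [Finset.card_eq_zero] at hs
    subst hs
    simpa using hw
  | succ n ih =>
    intro s hs z d e w hz hd he hw hze hdis
    have hne : s.Nonempty := by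
      rw [← Finset.card_pos, hs]
      omega
    obtain ⟨k₀, hk₀, hmin⟩ := Finset.exists_min_image s d hne
    have hcard : (s.erase k₀).card = n := by
      rw [Finset.card_erase_of_mem hk₀, hs]
      rfl
    have hd0 : 0 ≤ d k₀ := hd k₀ hk₀
    have hZ0 : 0 ≤ ∑ k ∈ s, z k := Finset.sum_nonneg hz
    -- the first layer
    have h1 : d k₀ • ∑ k ∈ s, z k ≤ w := by
      have hv0 : 0 ≤ (d k₀ • e - w) ⊔ 0 := le_sup_right
      have hdz : ∀ k ∈ s, ((d k₀ • e - w) ⊔ 0) ⊓ z k = 0 := by
        intro k hk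
        rw [inf_comm]
        refine disj_mono (hdis k hk) (hz k hk) le_rfl hv0 ?_
        refine sup_le_sup_right ?_ 0
        apply sub_le_sub_right
        exact smul_le_smul_of_nonneg_right (hmin k hk) he
      have hdZ := disj_smul hv0 hZ0 (disj_sum hv0 s z hz hdz) (d k₀) hd0
      rw [inf_comm] at hdZ
      refine disj_le hw ?_ hdZ
      calc d k₀ • ∑ k ∈ s, z k ≤ d k₀ • e := smul_le_smul_of_nonneg_left hze hd0
        _ = w + (d k₀ • e - w) := by abel
        _ ≤ w + ((d k₀ • e - w) ⊔ 0) := by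
          gcongr
          exact le_sup_left
    -- the remaining layers
    have h2 : ∑ k ∈ s.erase k₀, (d k - d k₀) • z k ≤ (w - d k₀ • e) ⊔ 0 := by
      refine ih (s.erase k₀) hcard z (fun k => d k - d k₀) e _
        (fun k hk => hz k (Finset.mem_of_mem_erase hk))
        (fun k hk => sub_nonneg.mpr (hmin k (Finset.mem_of_mem_erase hk))) he le_sup_right
        ((Finset.sum_le_sum_of_subset_of_nonneg (Finset.erase_subset _ _)
          (fun k hk _ => hz k hk)).trans hze) ?_
      intro k hk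
      have hk' := Finset.mem_of_mem_erase hk
      refine disj_mono (hdis k hk') (hz k hk') le_rfl le_sup_right ?_
      refine sup_le_sup_right ?_ 0
      have : (w - d k₀ • e) ≤ (w - d k₀ • e) ⊔ 0 := le_sup_left
      calc (d k - d k₀) • e - ((w - d k₀ • e) ⊔ 0) ≤ (d k - d k₀) • e - (w - d k₀ • e) :=
            sub_le_sub_left this _
        _ = d k • e - w := by
          rw [sub_smul]
          abel
    have h3 : ∑ k ∈ s, d k • z k = d k₀ • ∑ k ∈ s, z k +
        ∑ k ∈ s.erase k₀, (d k - d k₀) • z k := by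
      have e1 : ∑ k ∈ s.erase k₀, (d k - d k₀) • z k = ∑ k ∈ s, (d k - d k₀) • z k := by
        rw [← Finset.add_sum_erase s _ hk₀, sub_self, zero_smul, zero_add]
      rw [e1, Finset.smul_sum, ← Finset.sum_add_distrib]
      refine Finset.sum_congr rfl fun k _ => ?_
      rw [sub_smul]
      abel
    rw [h3]
    refine (add_le_add_right h2 _).trans ?_
    rw [add_sup]
    refine sup_le ?_ ?_
    · have : d k₀ • ∑ k ∈ s, z k ≤ d k₀ • e := smul_le_smul_of_nonneg_left hze hd0
      calc d k₀ • ∑ k ∈ s, z k + (w - d k₀ • e) ≤ d k₀ • e + (w - d k₀ • e) := by gcongr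
        _ = w := by abel
    · rw [add_zero]
      exact h1

lemma abs_smul_le (r : ℝ) (v : L) : |r • v| ≤ |r| • |v| := by
  have h : ∀ (r : ℝ) (v : L), r • v ≤ |r| • |v| := by
    intro r v
    rcases le_total 0 r with hr | hr
    · rw [abs_of_nonneg hr]
      exact smul_le_smul_of_nonneg_left (le_abs_self v) hr
    · rw [abs_of_nonpos hr]
      have : r • v = (-r) • (-v) := by rw [neg_smul_neg]
      rw [this]
      exact smul_le_smul_of_nonneg_left (neg_le_abs v) (neg_nonneg.mpr hr)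
  refine sup_le (h r v) ?_
  have := h (-r) v
  rwa [neg_smul, abs_neg] at this

lemma abs_smul_ge (r : ℝ) {e : L} (he : 0 ≤ e) : |r| • e ≤ |r • e| := by
  rcases le_total 0 r with hr | hr
  · rw [abs_of_nonneg hr]
    exact le_abs_self _
  · rw [abs_of_nonpos hr, neg_smul]
    exact neg_le_abs _

lemma abs_sum_le' {κ : Type*} (s : Finset κ) (v : κ → L) : |∑ k ∈ s, v k| ≤ ∑ k ∈ s, |v k| := by
  classical
  induction s using Finset.induction_on with
  | empty => simp
  | insert a s ha ih =>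
    rw [Finset.sum_insert ha, Finset.sum_insert ha]
    exact (abs_add_le _ _).trans (add_le_add_right ih _)

lemma unc {J κ : Type*} [Fintype J] [Fintype κ] (x : J → L) (e : L) (he : 0 ≤ e) (m : ℕ)
    (z : κ → L) (c : J → κ → ℕ) (hz0 : ∀ k, 0 ≤ z k) (hz1 : ∑ k, z k = e)
    (hz3 : ∀ j k, z k ⊓ ((|m • x j - (c j k) • e| - e) ⊔ 0) = 0) (A : J → ℝ) :
    ∑ k, |∑ j, A j * (c j k : ℝ)| • z k ≤ |m • ∑ j, A j • x j| + (∑ j, |A j|) • e := by
  classical
  have hA0 : 0 ≤ ∑ j, |A j| := Finset.sum_nonneg fun j _ => abs_nonneg _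
  refine layer (Finset.univ : Finset κ).card Finset.univ rfl z _ e _ (fun k _ => hz0 k)
    (fun k _ => abs_nonneg _) he (add_nonneg (abs_nonneg _) (smul_nonneg hA0 he)) hz1.le ?_
  intro k _
  have hr0 : ∀ j, 0 ≤ (|m • x j - (c j k) • e| - e) ⊔ 0 := fun j => le_sup_right
  have h1 : z k ⊓ ∑ j, |A j| • ((|m • x j - (c j k) • e| - e) ⊔ 0) = 0 :=
    disj_sum (hz0 k) Finset.univ _ (fun j _ => smul_nonneg (abs_nonneg _) (hr0 j))
      (fun j _ => disj_smul (hz0 k) (hr0 j) (hz3 j k) _ (abs_nonneg _))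
  refine disj_mono h1 (hz0 k) le_rfl le_sup_right ?_
  refine sup_le ?_ (Finset.sum_nonneg fun j _ => smul_nonneg (abs_nonneg _) (hr0 j))
  rw [sub_le_iff_le_add]
  have h2 : (∑ j, A j * (c j k : ℝ)) • e = m • (∑ j, A j • x j) -
      ∑ j, A j • (m • x j - (c j k) • e) := by
    rw [Finset.sum_smul, Finset.smul_sum, ← Finset.sum_sub_distrib]
    refine Finset.sum_congr rfl fun j _ => ?_
    rw [smul_sub, ← Nat.cast_smul_eq_nsmul ℝ m, ← Nat.cast_smul_eq_nsmul ℝ m,
      ← Nat.cast_smul_eq_nsmul ℝ (c j k), smul_smul, smul_smul, smul_smul, mul_comm (A j) (m : ℝ)]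
    abel
  calc |∑ j, A j * (c j k : ℝ)| • e ≤ |(∑ j, A j * (c j k : ℝ)) • e| := abs_smul_ge _ he
    _ = |m • (∑ j, A j • x j) - ∑ j, A j • (m • x j - (c j k) • e)| := by rw [h2]
    _ ≤ |m • (∑ j, A j • x j)| + |∑ j, A j • (m • x j - (c j k) • e)| := by
      rw [sub_eq_add_neg]
      refine (abs_add_le _ _).trans ?_
      rw [abs_neg]
    _ ≤ |m • (∑ j, A j • x j)| + ∑ j, |A j| • |m • x j - (c j k) • e| := by
      gcongr
      refine (abs_sum_le' _ _).trans (Finset.sum_le_sum fun j _ => abs_smul_le _ _)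
    _ ≤ |m • (∑ j, A j • x j)| +
        ∑ j, |A j| • (e + ((|m • x j - (c j k) • e| - e) ⊔ 0)) := by
      gcongr with j _
      have : |m • x j - (c j k) • e| - e ≤ (|m • x j - (c j k) • e| - e) ⊔ 0 := le_sup_left
      exact sub_le_iff_le_add'.mp this
    _ = _ := by
      simp only [smul_add, Finset.sum_add_distrib, Finset.sum_smul]
      abel

end real

end Pool.Agent.W496.BM
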