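import Pool.Agent.W496.BM.Lust
import Pool.Agent.W496.BM.Riesz2

/-!
# Banach lattices
-/

set_option autoImplicit false

namespace Pool.Agent.W496.BM

open Finset

universe u

lemma op_co {𝕜 : Type} [RCLike 𝕜] {ι : Type*} [Fintype ι] [DecidableEq ι]
    (y : EuclideanSpace 𝕜 ι →L[𝕜] EuclideanSpace 𝕜 ι) : op (co y) = y := by
  ext x i
  rw [op_apply]
  have hx : x = ∑ j, x j • EuclideanSpace.single j (1 : 𝕜) := by
    ext k
    simp [Pi.single_apply]
  conv_rhs => rw [hx]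
  rw [map_sum]
  simp only [map_smul, WithLp.ofLp_sum, Finset.sum_apply, PiLp.smul_apply, smul_eq_mul]
  refine Finset.sum_congr rfl fun j _ => ?_
  rw [mul_comm]
  rfl

lemma eq_sum_co {𝕜 : Type} [RCLike 𝕜] {ι : Type*} [Fintype ι] [DecidableEq ι]
    (y : EuclideanSpace 𝕜 ι →L[𝕜] EuclideanSpace 𝕜 ι) :
    ∑ p : ι × ι, co y p.1 p.2 • un p.1 p.2 = y := by
  rw [Fintype.sum_prod_type, ← op_eq, op_co]

lemma abs_co_le {ι : Type*} [Fintype ι] [DecidableEq ι]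
    (y : EuclideanSpace ℝ ι →L[ℝ] EuclideanSpace ℝ ι) (i j : ι) : |co y i j| ≤ ‖y‖ := by
  unfold co
  calc |(y (EuclideanSpace.single j 1)) i| ≤ ‖y (EuclideanSpace.single j 1)‖ := by
        have := PiLp.norm_apply_le (y (EuclideanSpace.single j 1)) i
        simpa using this
    _ ≤ ‖y‖ * ‖EuclideanSpace.single j (1 : ℝ)‖ := y.le_opNorm _
    _ = ‖y‖ := by simp

theorem lattice_est {X : Type*} [NormedAddCommGroup X] [NormedSpace ℝ X]
    [Lattice X] [HasSolidNorm X] [IsOrderedAddMonoid X] [IsOrderedModule ℝ X]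
    {ι : Type*} [Fintype ι] [DecidableEq ι]
    (a : (EuclideanSpace ℝ ι →L[ℝ] EuclideanSpace ℝ ι) →L[ℝ] X)
    (b : X →L[ℝ] (EuclideanSpace ℝ ι →L[ℝ] EuclideanSpace ℝ ι)) (hab : ∀ e, b (a e) = e) :
    ∃ (κ : Type) (_ : Fintype κ)
      (φ : κ → (EuclideanSpace ℝ ι →L[ℝ] EuclideanSpace ℝ ι) →ₗ[ℝ] ℝ)
      (x : κ → (EuclideanSpace ℝ ι →L[ℝ] EuclideanSpace ℝ ι)),
      (∀ y, ∑ k, φ k y • x k = y) ∧
      ∀ (y : EuclideanSpace ℝ ι →L[ℝ] EuclideanSpace ℝ ι) (s : κ → ℝ),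
        (∀ k, s k = 1 ∨ s k = -1) →
        ‖∑ k, (((s k : ℝ) : ℝ) * φ k y) • x k‖ ≤ 2 * (‖a‖ * ‖b‖) * ‖y‖ := by
  classical
  by_cases ha0 : ‖a‖ = 0
  · refine ⟨Fin 0, inferInstance, fun _ => 0, fun _ => 0, ?_, ?_⟩
    · intro y
      have h1 := a.le_opNorm y
      rw [ha0, zero_mul] at h1
      have h2 : a y = 0 := norm_le_zero_iff.mp h1
      have h3 := hab y
      rw [h2, map_zero] at h3
      simpa using h3
    · intro y s _
      simp [ha0]
  have hapos : 0 < ‖a‖ := lt_of_le_of_ne (ContinuousLinearMap.opNorm_nonneg a) (Ne.symm ha0)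
  -- the elements to be approximated
  obtain ⟨x, hx⟩ : ∃ x : (ι × ι) × Bool → X, x = fun p => match p with
      | (q, true) => a (un q.1 q.2) ⊔ 0
      | (q, false) => (-(a (un q.1 q.2))) ⊔ 0 := ⟨_, rfl⟩
  obtain ⟨e, he⟩ : ∃ e : X, e = ∑ p : ι × ι, |a (un p.1 p.2)| := ⟨_, rfl⟩
  have he0 : 0 ≤ e := by
    rw [he]
    exact Finset.sum_nonneg fun p _ => abs_nonneg _
  have hle : ∀ p : ι × ι, |a (un p.1 p.2)| ≤ e := by
    intro p
    rw [he]
    exact Finset.single_le_sum (f := fun p : ι × ι => |a (un p.1 p.2)|)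
      (fun p _ => abs_nonneg _) (Finset.mem_univ p)
  have hxe : ∀ j ∈ (Finset.univ : Finset ((ι × ι) × Bool)), 0 ≤ x j ∧ x j ≤ e := by
    rintro ⟨p, b'⟩ _
    rw [hx]
    cases b'
    · exact ⟨le_sup_right, (sup_le (neg_le_abs _) (abs_nonneg _)).trans (hle p)⟩
    · exact ⟨le_sup_right, (sup_le (le_abs_self _) (abs_nonneg _)).trans (hle p)⟩
  obtain ⟨n, hn⟩ : ∃ n : ℝ, n = (Fintype.card ι : ℝ) := ⟨_, rfl⟩
  have hn0 : 0 ≤ n := by rw [hn]; positivity
  obtain ⟨m, hm⟩ := exists_nat_gt (2 * n ^ 2 * ‖e‖ / ‖a‖)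
  have hm0 : (0 : ℝ) < m := lt_of_le_of_lt (by positivity) hm
  have hm1 : 2 * n ^ 2 * ‖e‖ ≤ m * ‖a‖ := ((div_lt_iff₀ hapos).mp hm).le
  obtain ⟨κ, _, z, c, hz0, hz1, hz2, hz3⟩ := joint Finset.univ x e he0 hxe m
  -- the coefficients
  obtain ⟨A, hA⟩ : ∃ A : (EuclideanSpace ℝ ι →L[ℝ] EuclideanSpace ℝ ι) → (ι × ι) × Bool → ℝ,
      A = fun y p => match p with
      | (q, true) => co y q.1 q.2
      | (q, false) => -co y q.1 q.2 := ⟨_, rfl⟩
  have hAx : ∀ y, ∑ j, A y j • x j = a y := by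
    intro y
    rw [Fintype.sum_prod_type]
    have h1 : ∀ p : ι × ι, ∑ b', A y (p, b') • x (p, b') = co y p.1 p.2 • a (un p.1 p.2) := by
      intro p
      rw [Fintype.sum_bool, hA, hx]
      dsimp only
      rw [neg_smul, ← sub_eq_add_neg, ← smul_sub]
      congr 1
      have h2 : (a (un p.1 p.2) ⊔ 0) = ((-(a (un p.1 p.2))) ⊔ 0) + a (un p.1 p.2) := by
        rw [sup_add, neg_add_cancel, zero_add, sup_comm]
      rw [h2]
      abel
    simp only [h1]
    conv_rhs => rw [← eq_sum_co y]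
    rw [map_sum]
    simp only [map_smul]
  have hAabs : ∀ y, ∑ j, |A y j| ≤ 2 * n ^ 2 * ‖y‖ := by
    intro y
    have h1 : ∀ j, |A y j| ≤ ‖y‖ := by
      rintro ⟨p, b'⟩
      rw [hA]
      cases b'
      · dsimp only
        rw [abs_neg]
        exact abs_co_le y _ _
      · exact abs_co_le y _ _
    calc ∑ j, |A y j| ≤ ∑ _j : (ι × ι) × Bool, ‖y‖ := Finset.sum_le_sum fun j _ => h1 j
      _ = 2 * n ^ 2 * ‖y‖ := by
        rw [Finset.sum_const, Finset.card_univ, nsmul_eq_mul, Fintype.card_prod,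
          Fintype.card_prod, Fintype.card_bool, hn]
        push_cast
        ring
  obtain ⟨φ, hφ⟩ : ∃ φ : κ → (EuclideanSpace ℝ ι →L[ℝ] EuclideanSpace ℝ ι) →ₗ[ℝ] ℝ,
      ∀ k y, φ k y = (m : ℝ)⁻¹ * ∑ j, A y j * (c j k : ℝ) := by
    refine ⟨fun k =>
      { toFun := fun y => (m : ℝ)⁻¹ * ∑ j, A y j * (c j k : ℝ)
        map_add' := ?_
        map_smul' := ?_ }, fun k y => rfl⟩
    · intro y y'
      rw [← mul_add, ← Finset.sum_add_distrib]
      congr 1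
      refine Finset.sum_congr rfl ?_
      rintro ⟨p, b'⟩ _
      rw [hA]
      cases b'
      · dsimp only
        rw [co_add]
        ring
      · dsimp only
        rw [co_add]
        ring
    · intro r y
      rw [RingHom.id_apply, smul_eq_mul, Finset.mul_sum, Finset.mul_sum, Finset.mul_sum]
      refine Finset.sum_congr rfl ?_
      rintro ⟨p, b'⟩ _
      rw [hA]
      cases b'
      · dsimp only
        rw [co_smul]
        ring
      · dsimp only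
        rw [co_smul]
        ring
  have hφz : ∀ y, ∑ k, φ k y • z k = a y := by
    intro y
    have h1 : ∀ k, φ k y • z k = (m : ℝ)⁻¹ • ∑ j, A y j • ((c j k) • z k) := by
      intro k
      rw [hφ, mul_smul, Finset.sum_smul]
      congr 1
      refine Finset.sum_congr rfl fun j _ => ?_
      rw [mul_smul, Nat.cast_smul_eq_nsmul]
    simp only [h1]
    rw [← Finset.smul_sum, Finset.sum_comm]
    have h2 : ∀ j, ∑ k, A y j • ((c j k) • z k) = (m : ℝ) • (A y j • x j) := by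
      intro j
      rw [← Finset.smul_sum, hz2 j (Finset.mem_univ _), ← Nat.cast_smul_eq_nsmul ℝ, smul_comm]
    simp only [h2]
    rw [← Finset.smul_sum, hAx, smul_smul, inv_mul_cancel₀ hm0.ne', one_smul]
  refine ⟨κ, inferInstance, φ, fun k => b (z k), ?_, ?_⟩
  · intro y
    have h1 := congrArg b (hφz y)
    rw [hab, map_sum] at h1
    refine Eq.trans (Finset.sum_congr rfl fun k _ => ?_) h1
    rw [map_smul]
  · intro y s hs
    have h1 : ∑ k, (((s k : ℝ) : ℝ) * φ k y) • b (z k) = b (∑ k, (s k * φ k y) • z k) := by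
      rw [map_sum]
      refine Finset.sum_congr rfl fun k _ => ?_
      rw [map_smul]
    have habs : ∀ k, |s k| = 1 := by
      intro k
      rcases hs k with h | h <;> rw [h] <;> simp
    have h2 : |∑ k, (s k * φ k y) • z k| ≤ (m : ℝ)⁻¹ • (|m • ∑ j, A y j • x j| +
        (∑ j, |A y j|) • e) := by
      refine (abs_sum_le' _ _).trans ?_
      have h3 := unc x e he0 m z c hz0 hz1 (fun j k => hz3 j (Finset.mem_univ _) k) (A y)
      refine le_trans ?_ (smul_le_smul_of_nonneg_left h3 (inv_nonneg.mpr hm0.le))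
      rw [Finset.smul_sum]
      refine Finset.sum_le_sum fun k _ => ?_
      refine (abs_smul_le _ _).trans ?_
      rw [abs_mul, habs, one_mul, hφ, abs_mul, abs_of_nonneg (inv_nonneg.mpr hm0.le),
        abs_of_nonneg (hz0 k), mul_smul]
    have h3 : ‖∑ k, (s k * φ k y) • z k‖ ≤ 2 * ‖a‖ * ‖y‖ := by
      have h4 : ‖∑ k, (s k * φ k y) • z k‖ ≤ ‖(m : ℝ)⁻¹ • (|m • ∑ j, A y j • x j| +
        (∑ j, |A y j|) • e)‖ := by
        apply norm_le_norm_of_abs_le_abs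
        exact h2.trans (le_abs_self _)
      refine h4.trans ?_
      rw [norm_smul, norm_inv, Real.norm_of_nonneg hm0.le]
      have h5 : ‖|m • ∑ j, A y j • x j| + (∑ j, |A y j|) • e‖ ≤
          m * (‖a‖ * ‖y‖) + 2 * n ^ 2 * ‖y‖ * ‖e‖ := by
        refine (norm_add_le _ _).trans ?_
        gcongr
        · rw [norm_abs_eq_norm, hAx, ← Nat.cast_smul_eq_nsmul ℝ, norm_smul,
            Real.norm_of_nonneg hm0.le]
          gcongr
          exact a.le_opNorm y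
        · rw [norm_smul, Real.norm_of_nonneg (Finset.sum_nonneg fun j _ => abs_nonneg _)]
          gcongr
          exact hAabs y
      calc (m : ℝ)⁻¹ * ‖|m • ∑ j, A y j • x j| + (∑ j, |A y j|) • e‖
          ≤ (m : ℝ)⁻¹ * (m * (‖a‖ * ‖y‖) + 2 * n ^ 2 * ‖y‖ * ‖e‖) := by gcongr
        _ ≤ (m : ℝ)⁻¹ * (m * (‖a‖ * ‖y‖) + m * ‖a‖ * ‖y‖) := by
          have h7 : 2 * n ^ 2 * ‖y‖ * ‖e‖ ≤ m * ‖a‖ * ‖y‖ := by
            calc 2 * n ^ 2 * ‖y‖ * ‖e‖ = (2 * n ^ 2 * ‖e‖) * ‖y‖ := by ring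
              _ ≤ (m * ‖a‖) * ‖y‖ := mul_le_mul_of_nonneg_right hm1 (norm_nonneg y)
          refine mul_le_mul_of_nonneg_left ?_ (by positivity)
          linarith
        _ = 2 * ‖a‖ * ‖y‖ := by
          field_simp
          ring
    have h6 : ‖∑ k, (((s k : ℝ) : ℝ) * φ k y) • b (z k)‖ ≤ 2 * (‖a‖ * ‖b‖) * ‖y‖ := by
      rw [h1]
      calc ‖b (∑ k, (s k * φ k y) • z k)‖ ≤ ‖b‖ * ‖∑ k, (s k * φ k y) • z k‖ := b.le_opNorm _
        _ ≤ ‖b‖ * (2 * ‖a‖ * ‖y‖) := by gcongr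
        _ = 2 * (‖a‖ * ‖b‖) * ‖y‖ := by ring
    exact h6

/-- complemented subspaces of normed lattices -/
theorem far_of_lattice {X : Type u} [NormedAddCommGroup X] [NormedSpace ℝ X] [CompleteSpace X]
    (hX : ¬ FiniteDimensional ℝ X) {L : Type*} [NormedAddCommGroup L] [NormedSpace ℝ L]
    [Lattice L] [HasSolidNorm L] [IsOrderedAddMonoid L] [IsOrderedModule ℝ L]
    (j : X →L[ℝ] L) (P : L →L[ℝ] X) (hPj : ∀ x, P (j x) = x) :
    Pool.Agent.Helper358.BP.Far ℝ X := by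
  refine far_of_est hX (2 * (‖j‖ * ‖P‖)) (by positivity) ?_
  intro ι _ _ a b hab
  obtain ⟨κ, i, φ, x, h1, h2⟩ := lattice_est (j.comp a) (b.comp P) (by
    intro e
    rw [ContinuousLinearMap.comp_apply, ContinuousLinearMap.comp_apply, hPj, hab])
  refine ⟨κ, i, φ, x, h1, fun y s hs => (h2 y s hs).trans ?_⟩
  calc 2 * (‖j.comp a‖ * ‖b.comp P‖) * ‖y‖ ≤ 2 * ((‖j‖ * ‖a‖) * (‖b‖ * ‖P‖)) * ‖y‖ := by
        gcongr
        · exact j.opNorm_comp_le a
        · exact b.opNorm_comp_le P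
    _ = 2 * (‖j‖ * ‖P‖) * (‖a‖ * ‖b‖) * ‖y‖ := by ring

end Pool.Agent.W496.BM
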