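import Pool.Agent.W496.BM.Fin

/-!
# Spaces with local unconditional structure: the factorization
-/

set_option autoImplicit false

namespace Pool.Agent.W496.BM

open Finset

universe u

variable {𝕜 : Type} [RCLike 𝕜]

theorem far_of_lust {X : Type u} [NormedAddCommGroup X] [NormedSpace 𝕜 X] [CompleteSpace X]
    (hX : ¬ FiniteDimensional 𝕜 X)
    (h : ∃ C : ℝ, ∀ E : Submodule 𝕜 X, FiniteDimensional 𝕜 E →
      ∃ (n : ℕ) (U : Type) (_ : NormedAddCommGroup U) (_ : NormedSpace 𝕜 U)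
        (v : Module.Basis (Fin n) 𝕜 U) (α : E →L[𝕜] U) (β : U →L[𝕜] X),
        (∀ (c : Fin n → 𝕜) (s : Fin n → ℝ), (∀ k, s k = 1 ∨ s k = -1) →
          ‖∑ k, (((s k : ℝ) : 𝕜) * c k) • v k‖ = ‖∑ k, c k • v k‖) ∧
        (∀ e : E, β (α e) = e) ∧ ‖α‖ * ‖β‖ ≤ C) :
    Pool.Agent.Helper358.BP.Far 𝕜 X := by
  obtain ⟨C, hC⟩ := h
  refine far_of_est hX |C| (abs_nonneg C) ?_
  intro ι _ _ a b hab
  have hfin : FiniteDimensional 𝕜 (LinearMap.range (a : (EuclideanSpace 𝕜 ι →L[𝕜]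
    EuclideanSpace 𝕜 ι) →ₗ[𝕜] X)) := inferInstance
  obtain ⟨n, U, _, _, v, α, β, hv, hβα, hn⟩ := hC _ hfin
  obtain ⟨a', ha'⟩ : ∃ a' : (EuclideanSpace 𝕜 ι →L[𝕜] EuclideanSpace 𝕜 ι) →ₗ[𝕜]
      LinearMap.range (a : (EuclideanSpace 𝕜 ι →L[𝕜] EuclideanSpace 𝕜 ι) →ₗ[𝕜] X),
      ∀ y, (a' y : X) = a y :=
    ⟨LinearMap.rangeRestrict (a : (EuclideanSpace 𝕜 ι →L[𝕜] EuclideanSpace 𝕜 ι) →ₗ[𝕜] X),
      fun y => rfl⟩
  have hα : ∀ y, ‖α (a' y)‖ ≤ ‖α‖ * (‖a‖ * ‖y‖) := by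
    intro y
    refine (α.le_opNorm _).trans ?_
    gcongr
    rw [← Submodule.norm_coe, ha']
    exact a.le_opNorm y
  have hsum : ∀ y, ∑ k, (v.coord k (α (a' y))) • v k = α (a' y) := by
    intro y
    exact v.sum_repr _
  refine ⟨Fin n, inferInstance, fun k => (v.coord k).comp ((α : _ →ₗ[𝕜] U).comp a'),
    fun k => b (β (v k)), ?_, ?_⟩
  · intro y
    have h1 : b (β (∑ k, (v.coord k (α (a' y))) • v k)) = y := by
      rw [hsum, hβα, ha', hab]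
    rw [map_sum, map_sum] at h1
    refine Eq.trans (Finset.sum_congr rfl fun k _ => ?_) h1
    rw [map_smul, map_smul]
    rfl
  · intro y s hs
    have h1 : ∑ k, (((s k : ℝ) : 𝕜) * ((v.coord k).comp ((α : _ →ₗ[𝕜] U).comp a')) y) •
        b (β (v k)) = b (β (∑ k, (((s k : ℝ) : 𝕜) * (v.coord k (α (a' y)))) • v k)) := by
      rw [map_sum, map_sum]
      refine Finset.sum_congr rfl fun k _ => ?_
      rw [map_smul, map_smul]
      rfl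
    rw [h1]
    calc ‖b (β (∑ k, (((s k : ℝ) : 𝕜) * (v.coord k (α (a' y)))) • v k))‖
        ≤ ‖b‖ * ‖β (∑ k, (((s k : ℝ) : 𝕜) * (v.coord k (α (a' y)))) • v k)‖ := b.le_opNorm _
      _ ≤ ‖b‖ * (‖β‖ * ‖∑ k, (((s k : ℝ) : 𝕜) * (v.coord k (α (a' y)))) • v k‖) := by
          gcongr
          exact β.le_opNorm _
      _ = ‖b‖ * (‖β‖ * ‖α (a' y)‖) := by rw [hv _ s hs, hsum]
      _ ≤ ‖b‖ * (‖β‖ * (‖α‖ * (‖a‖ * ‖y‖))) := by
          gcongr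
          exact hα y
      _ = (‖α‖ * ‖β‖) * (‖a‖ * ‖b‖) * ‖y‖ := by ring
      _ ≤ |C| * (‖a‖ * ‖b‖) * ‖y‖ := by
          gcongr
          exact hn.trans (le_abs_self C)

end Pool.Agent.W496.BM
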