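import Mathlib

/-!
# Vector lattices: disjointness, refinements, partitions
-/

set_option autoImplicit false

namespace Pool.Agent.W496.BM

open Finset

section group

variable {L : Type*} [AddCommGroup L] [Lattice L] [IsOrderedAddMonoid L]

lemma disj_mono {z v z' v' : L} (h : z ⊓ v = 0) (hz0 : 0 ≤ z') (hz : z' ≤ z) (hv0 : 0 ≤ v')
    (hv : v' ≤ v) : z' ⊓ v' = 0 :=
  le_antisymm ((inf_le_inf hz hv).trans h.le) (le_inf hz0 hv0)

lemma disj_le {u v v' : L} (hv : 0 ≤ v) (h : u ≤ v + v') (hd : u ⊓ v' = 0) : u ≤ v := by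
  have h1 : u - v ≤ u ⊓ v' := le_inf (sub_le_self u hv) (sub_le_iff_le_add'.mpr h)
  rw [hd] at h1
  exact sub_nonpos.mp h1

lemma disj_add {z v v' : L} (hz : 0 ≤ z) (hv : 0 ≤ v) (hv' : 0 ≤ v') (h : z ⊓ v = 0)
    (h' : z ⊓ v' = 0) : z ⊓ (v + v') = 0 := by
  have hu0 : 0 ≤ z ⊓ (v + v') := le_inf hz (add_nonneg hv hv')
  have h1 : (z ⊓ (v + v')) ⊓ v' = 0 := disj_mono h' hu0 inf_le_left hv' le_rfl
  have h2 : z ⊓ (v + v') ≤ v := disj_le hv inf_le_right h1
  refine le_antisymm ?_ hu0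
  rw [← h]
  exact le_inf inf_le_left h2

lemma disj_sum {κ : Type*} {z : L} (hz : 0 ≤ z) (s : Finset κ) (v : κ → L)
    (hv : ∀ k ∈ s, 0 ≤ v k) (h : ∀ k ∈ s, z ⊓ v k = 0) : z ⊓ (∑ k ∈ s, v k) = 0 := by
  classical
  induction s using Finset.induction_on with
  | empty => simpa using hz
  | insert a s ha ih =>
    rw [Finset.sum_insert ha]
    refine disj_add hz (hv a (Finset.mem_insert_self _ _))
      (Finset.sum_nonneg fun k hk => hv k (Finset.mem_insert_of_mem hk))
      (h a (Finset.mem_insert_self _ _)) ?_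
    exact ih (fun k hk => hv k (Finset.mem_insert_of_mem hk))
      (fun k hk => h k (Finset.mem_insert_of_mem hk))

lemma disj_nsmul {z v : L} (hz : 0 ≤ z) (hv : 0 ≤ v) (h : z ⊓ v = 0) (n : ℕ) :
    z ⊓ (n • v) = 0 := by
  have := disj_sum hz (Finset.range n) (fun _ => v) (fun _ _ => hv) (fun _ _ => h)
  simpa using this

lemma disj_pos_neg (w : L) : (w ⊔ 0) ⊓ ((-w) ⊔ 0) = 0 := by
  have h1 : (w ⊔ 0) ⊓ ((-w) ⊔ 0) + (w ⊔ 0) ⊔ ((-w) ⊔ 0) = (w ⊔ 0) + ((-w) ⊔ 0) :=
    inf_add_sup _ _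
  have h2 : (w ⊔ 0) - ((-w) ⊔ 0) = w := by
    have : (w ⊔ 0) = ((-w) ⊔ 0) + w := by
      rw [sup_add, neg_add_cancel, zero_add, sup_comm]
    rw [this]
    abel
  -- the infimum `d` satisfies `d ≥ 0`, and subtracting it
  have h3 : (w ⊔ 0) ⊓ ((-w) ⊔ 0) = (w ⊓ 0) + ((-w) ⊔ 0) := by
    have e1 : (w ⊔ 0) = w + ((-w) ⊔ 0) := by
      rw [add_sup, add_neg_cancel, add_zero, sup_comm]
    have e2 : (w ⊓ 0) + ((-w) ⊔ 0) = (w + ((-w) ⊔ 0)) ⊓ (0 + ((-w) ⊔ 0)) := inf_add _ _ _
    rw [e2, ← e1, zero_add]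
  rw [h3]
  have e3 : (-w) ⊔ 0 = -(w ⊓ 0) := by
    rw [neg_inf, neg_zero]
  rw [e3]
  abel

/-- Riesz decomposition -/
lemma decomp {κ : Type*} (s : Finset κ) : ∀ (z : κ → L) (u : L), (∀ k ∈ s, 0 ≤ z k) → 0 ≤ u →
    u ≤ ∑ k ∈ s, z k → ∃ w : κ → L, (∀ k, 0 ≤ w k) ∧ (∀ k ∈ s, w k ≤ z k) ∧
      ∑ k ∈ s, w k = u := by
  classical
  induction s using Finset.induction_on with
  | empty =>
    intro z u _ hu h
    exact ⟨fun _ => 0, fun _ => le_rfl, by simp, by
      simp only [Finset.sum_empty] at h ⊢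
      exact le_antisymm hu h⟩
  | insert a s ha ih =>
    intro z u hz hu h
    rw [Finset.sum_insert ha] at h
    have hza := hz a (Finset.mem_insert_self _ _)
    have hzs : 0 ≤ ∑ k ∈ s, z k :=
      Finset.sum_nonneg fun k hk => hz k (Finset.mem_insert_of_mem hk)
    have h1 : u - u ⊓ z a ≤ ∑ k ∈ s, z k := by
      rw [sub_le_iff_le_add']
      have : u ≤ (u + ∑ k ∈ s, z k) ⊓ (z a + ∑ k ∈ s, z k) :=
        le_inf (le_add_of_nonneg_right hzs) h
      rwa [← inf_add] at this
    obtain ⟨w, hw0, hw1, hw2⟩ := ih z (u - u ⊓ z a)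
      (fun k hk => hz k (Finset.mem_insert_of_mem hk)) (sub_nonneg.mpr inf_le_left) h1
    refine ⟨Function.update w a (u ⊓ z a), ?_, ?_, ?_⟩
    · intro k
      by_cases hk : k = a
      · subst hk
        rw [Function.update_self]
        exact le_inf hu hza
      · rw [Function.update_of_ne hk]
        exact hw0 k
    · intro k hk
      by_cases hka : k = a
      · subst hka
        rw [Function.update_self]
        exact inf_le_right
      · rw [Function.update_of_ne hka]
        exact hw1 k ((Finset.mem_insert.mp hk).resolve_left hka)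
    · rw [Finset.sum_insert ha, Function.update_self]
      have : ∑ k ∈ s, Function.update w a (u ⊓ z a) k = ∑ k ∈ s, w k := by
        refine Finset.sum_congr rfl fun k hk => ?_
        rw [Function.update_of_ne]
        rintro rfl
        exact ha hk
      rw [this, hw2]
      abel

/-- Riesz refinement -/
lemma refinement {κ : Type*} [Fintype κ] : ∀ (n : ℕ) (z : κ → L) (u : Fin n → L),
    (∀ k, 0 ≤ z k) → (∀ j, 0 ≤ u j) → ∑ k, z k = ∑ j, u j →
    ∃ w : κ → Fin n → L, (∀ k j, 0 ≤ w k j) ∧ (∀ k, ∑ j, w k j = z k) ∧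
      ∀ j, ∑ k, w k j = u j := by
  intro n
  induction n with
  | zero =>
    intro z u hz _ h
    simp only [Finset.univ_eq_empty, Finset.sum_empty] at h
    refine ⟨fun _ _ => 0, fun _ _ => le_rfl, fun k => ?_, fun j => j.elim0⟩
    have := (Finset.sum_eq_zero_iff_of_nonneg fun k _ => hz k).mp h k (Finset.mem_univ _)
    rw [this]
    simp
  | succ n ih =>
    intro z u hz hu h
    rw [Fin.sum_univ_succ] at h
    have h0 : u 0 ≤ ∑ k, z k := by
      rw [h]
      exact le_add_of_nonneg_right (Finset.sum_nonneg fun j _ => hu _)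
    obtain ⟨w, hw0, hw1, hw2⟩ := decomp Finset.univ z (u 0) (fun k _ => hz k) (hu 0) h0
    obtain ⟨w', hw'0, hw'1, hw'2⟩ := ih (fun k => z k - w k) (fun j => u j.succ)
      (fun k => sub_nonneg.mpr (hw1 k (Finset.mem_univ _))) (fun j => hu _) (by
        rw [Finset.sum_sub_distrib, hw2, h]
        abel)
    refine ⟨fun k => Fin.cons (w k) (w' k), ?_, ?_, ?_⟩
    · intro k j
      refine Fin.cases ?_ (fun j => ?_) j
      · exact hw0 k
      · exact hw'0 k j
    · intro k
      rw [Fin.sum_univ_succ]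
      simp only [Fin.cons_zero, Fin.cons_succ]
      rw [hw'1]
      abel
    · intro j
      refine Fin.cases ?_ (fun j => ?_) j
      · simpa using hw2
      · simpa using hw'2 j

/-- the partition belonging to an element `x` with `0 ≤ x ≤ e` -/
lemma hats (x e : L) (hx : 0 ≤ x) (hxe : x ≤ e) (m : ℕ) :
    ∃ u : ℕ → L, (∀ k, 0 ≤ u k) ∧ ∑ k ∈ Finset.range (m + 1), u k = e ∧
      ∑ k ∈ Finset.range (m + 1), k • u k = m • x ∧
      ∀ k, u k ⊓ ((|m • x - k • e| - e) ⊔ 0) = 0 := by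
  have he : 0 ≤ e := hx.trans hxe
  obtain ⟨a, ha⟩ : ∃ a : ℕ → L, ∀ k, a k = m • x + e - k • e := ⟨_, fun _ => rfl⟩
  obtain ⟨q, hq⟩ : ∃ q : ℕ → L, ∀ k, q k = a k ⊔ 0 := ⟨_, fun _ => rfl⟩
  obtain ⟨t, ht⟩ : ∃ t : ℕ → L, ∀ k, t k = q k ⊓ e := ⟨_, fun _ => rfl⟩
  have ha1 : ∀ k, a (k + 1) = a k - e := by
    intro k
    rw [ha, ha, succ_nsmul]
    abel
  have hq0 : ∀ k, 0 ≤ q k := fun k => by rw [hq]; exact le_sup_right
  have htq : ∀ k, t k = q k - q (k + 1) := by
    intro k
    have h1 : q (k + 1) = (q k ⊔ e) - e := by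
      rw [hq, hq, ha1, sup_assoc, sup_eq_right.mpr he]
      have : (a k ⊔ e) - e = (a k - e) ⊔ (e - e) := by
        rw [sub_eq_add_neg, sup_add, ← sub_eq_add_neg, ← sub_eq_add_neg]
      rw [this, sub_self]
    have h2 := inf_add_sup (q k) e
    rw [ht, h1]
    have : q k ⊓ e = q k + e - (q k ⊔ e) := by
      rw [← h2]
      abel
    rw [this]
    abel
  have hqa : ∀ k, q (k + 1) ≤ q k := by
    intro k
    rw [hq, hq, ha1]
    exact sup_le_sup_right (sub_le_self _ he) 0
  have hta : ∀ k, t (k + 1) ≤ t k := by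
    intro k
    rw [ht, ht]
    exact inf_le_inf_right e (hqa k)
  have hqm : q (m + 1) = 0 := by
    rw [hq, ha, succ_nsmul]
    apply sup_eq_right.mpr
    have : m • x ≤ m • e := nsmul_le_nsmul_right hxe m
    have h3 : m • x + e - (m • e + e) = m • x - m • e := by abel
    rw [h3]
    exact sub_nonpos.mpr this
  have htm : t (m + 1) = 0 := by
    rw [ht, hqm]
    exact inf_eq_left.mpr he
  have ht0 : t 0 = e := by
    rw [ht, hq, ha]
    apply inf_eq_right.mpr
    refine le_trans ?_ le_sup_left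
    rw [zero_nsmul, sub_zero]
    exact le_add_of_nonneg_left (nsmul_nonneg hx m)
  refine ⟨fun k => t k - t (k + 1), fun k => sub_nonneg.mpr (hta k), ?_, ?_, ?_⟩
  · rw [Finset.sum_range_sub', ht0, htm, sub_zero]
  · have h1 : ∀ n : ℕ, ∑ k ∈ Finset.range (n + 1), k • (t k - t (k + 1)) =
        q 1 - q (n + 1) - n • t (n + 1) := by
      intro n
      induction n with
      | zero => simp
      | succ n ih =>
        rw [Finset.sum_range_succ, ih, nsmul_sub, succ_nsmul, succ_nsmul]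
        rw [htq (n + 1)]
        abel
    rw [h1, hqm, htm, nsmul_zero, sub_zero, sub_zero, hq, ha, one_nsmul]
    have : m • x + e - e = m • x := by abel
    rw [this]
    exact sup_eq_left.mpr (nsmul_nonneg hx m)
  · intro k
    have hu0 : 0 ≤ t k - t (k + 1) := sub_nonneg.mpr (hta k)
    have ht0' : ∀ k, 0 ≤ t k := fun k => by rw [ht]; exact le_inf (hq0 k) he
    obtain ⟨v, hv⟩ : ∃ v : L, v = m • x - k • e := ⟨_, rfl⟩
    have hak : a k = v + e := by rw [ha, hv]; abel
    have hak1 : a (k + 1) = v := by rw [ha1, hak]; abel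
    have h4 : t k - t (k + 1) ≤ (-(-v - e)) ⊔ 0 := by
      have e1 : -(-v - e) = a k := by rw [hak]; abel
      rw [e1, ← hq]
      refine (sub_le_self _ (ht0' _)).trans ?_
      rw [ht]
      exact inf_le_left
    have h5 : t k - t (k + 1) ≤ (-(v - e)) ⊔ 0 := by
      have e1 : t k - t (k + 1) ≤ e - t (k + 1) := by
        apply sub_le_sub_right
        rw [ht]
        exact inf_le_right
      refine e1.trans ?_
      rw [ht, sub_inf, sub_self]
      refine sup_le_sup_right ?_ 0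
      rw [neg_sub, hq, hak1]
      exact sub_le_sub_left le_sup_left e
    have h6 : (t k - t (k + 1)) ⊓ ((v - e) ⊔ 0) = 0 := by
      have := disj_pos_neg (v - e)
      rw [inf_comm] at this
      exact disj_mono this hu0 h5 le_sup_right le_rfl
    have h7 : (t k - t (k + 1)) ⊓ ((-v - e) ⊔ 0) = 0 := by
      have := disj_pos_neg (-v - e)
      rw [inf_comm] at this
      exact disj_mono this hu0 h4 le_sup_right le_rfl
    have h8 := disj_add hu0 le_sup_right le_sup_right h6 h7
    refine disj_mono h8 hu0 le_rfl le_sup_right ?_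
    rw [← hv]
    refine sup_le ?_ (add_nonneg le_sup_right le_sup_right)
    rw [sub_le_iff_le_add]
    refine sup_le ?_ ?_
    · have : v = (v - e) + 0 + e := by abel
      conv_lhs => rw [this]
      gcongr
      · exact le_sup_left
      · exact le_sup_right
    · have : -v = 0 + (-v - e) + e := by abel
      conv_lhs => rw [this]
      gcongr
      · exact le_sup_right
      · exact le_sup_left

end group

end Pool.Agent.W496.BM
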